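import Pool.Agent.TH886.HLD.Main

set_option autoImplicit false

/-!
Let `H` be a complete `r`-partite graph, `r ≥ 2` (the parts are the fibres of `p`, with sizes
`s i`), let `d ≥ 1`, and suppose that `s i * (s j + R) ^ d ≤ s j * (s i + R) ^ d` for all `i`, `j`
with `s i < s j`, where `R = ∑_{k ≠ i, j} min (s k) (s j)`. Then `hom(P_n, H) ≤ hom(T, H)` for
every tree `T` with `n` vertices and maximum degree at most `d + 1`.

The condition holds for instance if at least `d` of the parts have the maximal size
(`Pool.Agent.TH886.HLD.cond_of_max`).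
-/

namespace Pool.Agent.Results.MP_66e4ee_co.BoundedDegree

open Finset

theorem result :
    ∀ r d : ℕ, 2 ≤ r → 1 ≤ d → ∀ (W : Type) [Fintype W] (p : W → Fin r), Function.Surjective p →
      (∀ i j : Fin r, Nat.card {w : W // p w = i} < Nat.card {w : W // p w = j} →
        Nat.card {w : W // p w = i} * (Nat.card {w : W // p w = j} +
            ∑ k ∈ univ.filter (fun k => k ≠ i ∧ k ≠ j),
              min (Nat.card {w : W // p w = k}) (Nat.card {w : W // p w = j})) ^ d
          ≤ Nat.card {w : W // p w = j} * (Nat.card {w : W // p w = i} +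
            ∑ k ∈ univ.filter (fun k => k ≠ i ∧ k ≠ j),
              min (Nat.card {w : W // p w = k}) (Nat.card {w : W // p w = j})) ^ d) →
      ∀ (n : ℕ) (T : SimpleGraph (Fin n)), T.IsTree → (∀ v, (T.neighborSet v).ncard ≤ d + 1) →
        Nat.card {f : Fin n → W //
            ∀ a b : Fin n, (SimpleGraph.pathGraph n).Adj a b → p (f a) ≠ p (f b)}
          ≤ Nat.card {f : Fin n → W // ∀ a b : Fin n, T.Adj a b → p (f a) ≠ p (f b)} := by
  intro r d hr hd W _ p hp hC n T hT hdeg
  exact Pool.Agent.TH886.HLD.final hr hd W p hp hC n T hT hdeg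

end Pool.Agent.Results.MP_66e4ee_co.BoundedDegree
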