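import Pool.Agent.TH462.HL2.Main

set_option autoImplicit false

/-!
Let `H` be a complete `r`-partite graph, `r ≥ 3` (the parts are the fibres of `p`), whose parts
take at most two distinct sizes `s`, `t`. Then `H` is Hoffman-London:
`hom(P_n, H) ≤ hom(T, H)` for every tree `T` with `n` vertices.
-/

namespace Pool.Agent.Results.MP_66e4ee_co.TwoSizes

theorem result :
    ∀ r : ℕ, 3 ≤ r → ∀ (W : Type) [Fintype W] (p : W → Fin r), Function.Surjective p →
      ∀ s t : ℕ, (∀ i : Fin r, Nat.card {w : W // p w = i} = s ∨ Nat.card {w : W // p w = i} = t) →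
      ∀ (n : ℕ) (T : SimpleGraph (Fin n)), T.IsTree →
        Nat.card {f : Fin n → W //
            ∀ a b : Fin n, (SimpleGraph.pathGraph n).Adj a b → p (f a) ≠ p (f b)}
          ≤ Nat.card {f : Fin n → W // ∀ a b : Fin n, T.Adj a b → p (f a) ≠ p (f b)} :=
  Pool.Agent.TH462.HL2.main

end Pool.Agent.Results.MP_66e4ee_co.TwoSizes
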